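import Mathlib
import Pool.Agent.P.MP_4cb405_co.Final

set_option autoImplicit false

namespace Pool.Agent.Results.MP_4cb405_co.Blocks

/-- Gap `π j` is nested below gap `π i`: every gap lying between the positions `π i` and `π j`
(ends included) has rank at least `i` in the order `π`. -/
def Nested {n : ℕ} (π : Equiv.Perm (Fin n)) (i j : Fin n) : Prop :=
  ∀ m : Fin n, ((π i ≤ m ∧ m ≤ π j) ∨ (π j ≤ m ∧ m ≤ π i)) → i ≤ π.symm m

open Pool.Agent.P.MP_4cb405_co in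
theorem result :
    ∀ q : ℕ, 0 < q → ∃ c : ℕ, ∀ t : ℕ, 0 < t → ∀ π : Equiv.Perm (Fin (t - 1)),
      ∀ k : ℕ, 0 < k → ∀ b : Fin (t - 1) → Fin k, Monotone b →
      ∀ N : ℕ, 2 ^ (c * k ^ (4 * q - 2) * t) ≤ N → ∀ f : ℕ → ℕ → Fin q,
        ∃ a : ℕ → ℕ, ∃ col : Fin q,
          (∀ i : ℕ, i + 1 < t → a i < a (i + 1)) ∧
          (∀ i : ℕ, i < t → a i < N) ∧
          (∀ i j : ℕ, i < j → j < t → f (a i) (a j) = col) ∧
          (∀ i j : Fin (t - 1), i < j → (b i < b j ∨ Nested π i j) →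
            a (((π j : Fin (t - 1)) : ℕ) + 1) - a ((π j : Fin (t - 1)) : ℕ) <
              a (((π i : Fin (t - 1)) : ℕ) + 1) - a ((π i : Fin (t - 1)) : ℕ)) := by
  intro q hq
  refine ⟨8 * q ^ 2 * (10 * q + 10) ^ 2, fun t ht π k hk b hb N hN f => ?_⟩
  obtain ⟨n, rfl⟩ : ∃ n, t = n + 1 := ⟨t - 1, by omega⟩
  rcases Nat.eq_zero_or_pos n with rfl | hn
  · refine ⟨fun _ => 0, ⟨0, hq⟩, fun i hi => by omega,
      fun i _ => lt_of_lt_of_le (by positivity) hN, fun i j _ _ => by omega, fun i => i.elim0⟩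
  let ρ : ℕ → ℕ := fun p => if h : p < n then (π.symm ⟨p, h⟩ : ℕ) else 0
  let B : ℕ → ℕ := fun p => if h : p < n then (b (π.symm ⟨p, h⟩) : ℕ) else 0
  have hρ : ∀ m : Fin n, ρ m = (π.symm m : ℕ) := fun m => by simp [ρ]
  have hBv : ∀ m : Fin n, B m = (b (π.symm m) : ℕ) := fun m => by simp [B]
  obtain ⟨c, hc, a, h1, h2, h3⟩ := block_thm q hq (fun x y => (f x y : ℕ)) (fun x y => (f x y).2)
    ρ B k n hn (fun p => by
      by_cases h : p < n
      · simp [B, h]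
      · simp [B, h, hk])
    (fun p p' hp hp' h => by
      have e1 := hρ ⟨p, hp⟩
      have e2 := hρ ⟨p', hp'⟩
      rw [hBv ⟨p, hp⟩, hBv ⟨p', hp'⟩]
      apply hb
      show ((π.symm ⟨p, hp⟩ : Fin n) : ℕ) ≤ ((π.symm ⟨p', hp'⟩ : Fin n) : ℕ)
      rw [← e1, ← e2]; exact h) N hN
  refine ⟨a, ⟨c, hc⟩, fun i hi => (h2 i (i + 1) (by omega) (by omega)).1,
    fun i hi => h1 i (by omega), fun i j hij hj => Fin.ext (h2 i j hij (by omega)).2,
    fun i j hij hb' => h3 _ _ (π i).2 (π j).2 ?_⟩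
  rcases hb' with h | h
  · left
    rw [hBv (π i), hBv (π j)]
    simpa using h
  · right
    refine ⟨fun e => hij.ne (π.injective (Fin.ext e)), fun m hm hne => ?_⟩
    have hmn : m < n := by
      have := (π i).2
      have := (π j).2
      omega
    have h4 := h ⟨m, hmn⟩ hm
    have h5 : i ≠ π.symm ⟨m, hmn⟩ := by
      intro e
      apply hne
      rw [e]
      simp
    rw [hρ (π i), hρ ⟨m, hmn⟩]
    have h6 : i < π.symm ⟨m, hmn⟩ := lt_of_le_of_ne h4 h5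
    simpa using h6

end Pool.Agent.Results.MP_4cb405_co.Blocks
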