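import Mathlib
import Pool.Agent.P.MP_4cb405_co.Fc.Core2

set_option autoImplicit false

namespace Pool.Agent.Results.MP_4cb405_co.FreeColour

/-- Gap `π j` is nested below gap `π i`: every gap lying between the positions `π i` and `π j`
(ends included) has rank at least `i` in the order `π`. -/
def Nested {n : ℕ} (π : Equiv.Perm (Fin n)) (i j : Fin n) : Prop :=
  ∀ m : Fin n, ((π i ≤ m ∧ m ≤ π j) ∨ (π j ≤ m ∧ m ≤ π i)) → i ≤ π.symm m

open Pool.Agent.P.MP_4cb405_co in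
theorem result :
    ∀ q : ℕ, 0 < q → ∃ c : ℕ, ∀ t : ℕ, 0 < t → ∀ π : Equiv.Perm (Fin (t - 1)),
      ∀ d : ℕ, (∀ j, {i | Nested π i j}.ncard ≤ d) →
      ∀ N : ℕ, 2 ^ (c * t ^ 2 * (Nat.log 2 t + 1) * d ^ (q - 2)) ≤ N → ∀ f : ℕ → ℕ → Fin q,
        ∃ a : ℕ → ℕ, ∃ col : Fin q,
          (∀ i : ℕ, i + 1 < t → a i < a (i + 1)) ∧
          (∀ i : ℕ, i < t → a i < N) ∧
          (∀ i j : ℕ, i < j → j < t → f (a i) (a j) = col) ∧
          (∀ i j : Fin (t - 1), i < j →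
            a (((π j : Fin (t - 1)) : ℕ) + 1) - a ((π j : Fin (t - 1)) : ℕ) <
              a (((π i : Fin (t - 1)) : ℕ) + 1) - a ((π i : Fin (t - 1)) : ℕ)) := by
  classical
  intro q hq
  obtain ⟨C, hC⟩ := Fc.core (q - 2 + 1) (Nat.succ_pos _)
  refine ⟨C, fun t ht π d hd N hN f => ?_⟩
  obtain ⟨n, rfl⟩ : ∃ n, t = n + 1 := ⟨t - 1, by omega⟩
  rcases Nat.eq_zero_or_pos n with rfl | hn
  · refine ⟨fun _ => 0, ⟨0, hq⟩, fun i hi => by omega,
      fun i _ => lt_of_lt_of_le (by positivity) hN, fun i j _ _ => by omega, fun i => i.elim0⟩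
  let ρ : ℕ → ℕ := fun p => if h : p < n then (π.symm ⟨p, h⟩ : ℕ) else 0
  have hρ : ∀ m : Fin n, ρ m = (π.symm m : ℕ) := fun m => by simp [ρ]
  have hd1 : 1 ≤ d := by
    refine le_trans ((Set.ncard_pos (Set.toFinite _)).2 ⟨⟨0, hn⟩, fun m _ => ?_⟩) (hd ⟨0, hn⟩)
    exact Nat.zero_le _
  obtain ⟨c, a, h1, h2, h3⟩ := hC (fun x y => (f x y : ℕ))
    (fun x y => by have := (f x y).2; omega) n (min d (n + 1)) (by omega) (min_le_right _ _) ρ
    (fun k hk => by rw [hρ ⟨k, hk⟩]; exact (π.symm ⟨k, hk⟩).2)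
    (fun k hk l hl h => by
      rw [hρ ⟨k, hk⟩, hρ ⟨l, hl⟩] at h
      exact congrArg Fin.val (π.symm.injective (Fin.ext h)))
    (fun k hk => by
      refine le_min ?_ ((Finset.card_filter_le _ _).trans (by simp))
      refine le_trans ?_ (hd (π.symm ⟨k, hk⟩))
      rw [← Set.ncard_coe_finset]
      refine le_trans (Set.ncard_le_ncard (t := (fun i => ((π i : Fin (n + 1 - 1)) : ℕ)) ''
        {i | Nested π i (π.symm ⟨k, hk⟩)}) (fun m hm => ?_) (Set.toFinite _))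
        (Set.ncard_image_le (Set.toFinite _))
      obtain ⟨m1, m2⟩ := Finset.mem_filter.1 (Finset.mem_coe.1 hm)
      have m3 := Finset.mem_range.1 m1
      refine ⟨π.symm ⟨m, m3⟩, fun p hp => ?_, by simp⟩
      have := m2 p (by simpa [Fin.le_def] using hp)
      rwa [hρ ⟨m, m3⟩, hρ p] at this)
  have hc : c < q := by
    rw [← (h2 0 1 (by omega) (by omega)).2]
    exact (f _ _).2
  refine ⟨a, ⟨c, hc⟩, fun i hi => (h2 i (i + 1) (by omega) (by omega)).1,
    fun i hi => lt_of_lt_of_le (h1 i (by omega)) (le_trans ?_ hN),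
    fun i j hij hj => Fin.ext (h2 i j hij (by omega)).2,
    fun i j hij => h3 _ (π i).2 _ (π j).2 ?_⟩
  · exact Nat.pow_le_pow_right (by norm_num)
      (Nat.mul_le_mul_left _ (Nat.pow_le_pow_left (min_le_left _ _) _))
  · rw [hρ (π i), hρ (π j)]
    simpa using hij

end Pool.Agent.Results.MP_4cb405_co.FreeColour
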