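import Mathlib
import Pool.Agent.P.MP_4cb405_co.Pk.H

set_option autoImplicit false

namespace Pool.Agent.Results.MP_4cb405_co.Peaks

/-- The gap position `m` is a peak of the order `π`: it has a neighbouring gap on each side and
both neighbours have larger rank (they are prescribed to be smaller than gap `m`). -/
def IsPeak {n : ℕ} (π : Equiv.Perm (Fin n)) (m : Fin n) : Prop :=
  ∃ l r : Fin n, (l : ℕ) + 1 = m ∧ (m : ℕ) + 1 = r ∧ π.symm m < π.symm l ∧ π.symm m < π.symm r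

open Pool.Agent.P.MP_4cb405_co in
theorem result :
    ∀ q : ℕ, 0 < q → ∃ C : ℕ, ∀ t : ℕ, 0 < t → ∀ π : Equiv.Perm (Fin (t - 1)),
      ∀ w : ℕ, {m | IsPeak π m}.ncard ≤ w →
      ∀ N : ℕ, 2 ^ (2 ^ (C * (w + 1) ^ (2 * q)) * t) ≤ N → ∀ f : ℕ → ℕ → Fin q,
        ∃ a : ℕ → ℕ, ∃ col : Fin q,
          (∀ i : ℕ, i + 1 < t → a i < a (i + 1)) ∧
          (∀ i : ℕ, i < t → a i < N) ∧
          (∀ i j : ℕ, i < j → j < t → f (a i) (a j) = col) ∧
          (∀ i j : Fin (t - 1), i < j →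
            a (((π j : Fin (t - 1)) : ℕ) + 1) - a ((π j : Fin (t - 1)) : ℕ) <
              a (((π i : Fin (t - 1)) : ℕ) + 1) - a ((π i : Fin (t - 1)) : ℕ)) := by
  classical
  intro q _
  refine ⟨4 * q + 19, fun t ht π w hw N hN f => ?_⟩
  obtain ⟨n, rfl⟩ : ∃ n, t = n + 1 := ⟨t - 1, by omega⟩
  let ρ : ℕ → ℕ := fun p => if h : p < n then (π.symm ⟨p, h⟩ : ℕ) else 0
  have hρ : ∀ m : Fin n, ρ m = (π.symm m : ℕ) := fun m => by simp [ρ]
  obtain ⟨c, a, h1, h2, h3⟩ := Pk.core Pk.p_PASS Pk.p_PROBE f (n := n) (w := w) (N := N) (ρ := ρ)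
    (fun g hg g' hg' h => by
      rw [hρ ⟨g, hg⟩, hρ ⟨g', hg'⟩] at h
      exact congrArg Fin.val (π.symm.injective (Fin.ext h)))
    (fun g hg => by rw [hρ ⟨g, hg⟩]; exact (π.symm ⟨g, hg⟩).2)
    (fun r hr => ⟨π ⟨r, hr⟩, (π ⟨r, hr⟩).2, by rw [hρ (π ⟨r, hr⟩)]; simp⟩)
    (fun r => by
      refine le_trans ?_ hw
      rw [← Set.ncard_image_of_injective _ Fin.val_injective, Pk.stage, ← Set.ncard_coe_finset]
      refine Set.ncard_le_ncard (fun g hg => ?_) (Set.toFinite _)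
      obtain ⟨g1, ⟨g2, g3, g4, g5⟩, -⟩ := Finset.mem_filter.1 (Finset.mem_coe.1 hg)
      have g6 : g < n := Finset.mem_range.1 g1
      have g7 : g - 1 < n := by omega
      rw [hρ ⟨g, g6⟩, hρ ⟨g - 1, g7⟩] at g4
      rw [hρ ⟨g, g6⟩, hρ ⟨g + 1, g3⟩] at g5
      exact ⟨⟨g, g6⟩, ⟨⟨g - 1, g7⟩, ⟨g + 1, g3⟩, Nat.sub_add_cancel g2, rfl, g4, g5⟩, rfl⟩) hN
  refine ⟨a, c, fun i hi => (h2 i (i + 1) (by omega) (by omega)).1, fun i hi => h1 i (by omega),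
    fun i j hij hj => (h2 i j hij (by omega)).2, fun i j hij => h3 _ (π i).2 _ (π j).2 ?_⟩
  rw [hρ (π i), hρ (π j)]
  simpa using hij

end Pool.Agent.Results.MP_4cb405_co.Peaks
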