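import Mathlib
import Pool.Agent.P.MP_4cb405_co.Hs.E

set_option autoImplicit false

namespace Pool.Agent.Results.MP_4cb405_co.Strahler

/-- In every interval `[i, j]` of gap positions, with `m` the position of smallest rank, either
all positions left of `m` have smaller rank than all positions right of `m`, or conversely. -/
def IsSeparated {n : ℕ} (π : Equiv.Perm (Fin n)) : Prop :=
  ∀ i m j : Fin n, i ≤ m → m ≤ j → (∀ p, i ≤ p → p ≤ j → π.symm m ≤ π.symm p) →
    (∀ p p', i ≤ p → p < m → m < p' → p' ≤ j → π.symm p < π.symm p') ∨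
    (∀ p p', i ≤ p → p < m → m < p' → p' ≤ j → π.symm p' < π.symm p)

/-- The Cartesian tree of `π` has Horton-Strahler number at most `s` (empty subtrees count 0):
the intervals `[i, j)` of gap positions can be labelled by natural numbers, the whole interval by
a number at most `s`, so that on deleting from a nonempty interval its position `m` of smallest
rank both remaining parts have label at most that of the interval, and one has a smaller label. -/
def StrahlerAtMost {n : ℕ} (π : Equiv.Perm (Fin n)) (s : ℕ) : Prop :=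
  ∃ σ : ℕ → ℕ → ℕ, σ 0 n ≤ s ∧ ∀ (i j : ℕ) (m : Fin n), i ≤ m → m < j → j ≤ n →
    (∀ p : Fin n, i ≤ p → p < j → π.symm m ≤ π.symm p) →
      max (σ i m) (σ (m + 1) j) ≤ σ i j ∧ min (σ i m) (σ (m + 1) j) < σ i j

open Pool.Agent.P.MP_4cb405_co in
theorem result :
    ∀ q : ℕ, 0 < q → ∀ s : ℕ, ∃ c : ℕ, ∀ t : ℕ, 0 < t → ∀ π : Equiv.Perm (Fin (t - 1)),
      IsSeparated π → StrahlerAtMost π s →
      ∀ N : ℕ, 2 ^ (c * t) ≤ N → ∀ f : ℕ → ℕ → Fin q,
        ∃ a : ℕ → ℕ, ∃ col : Fin q,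
          (∀ i : ℕ, i + 1 < t → a i < a (i + 1)) ∧
          (∀ i : ℕ, i < t → a i < N) ∧
          (∀ i j : ℕ, i < j → j < t → f (a i) (a j) = col) ∧
          (∀ i j : Fin (t - 1), i < j →
            a (((π j : Fin (t - 1)) : ℕ) + 1) - a ((π j : Fin (t - 1)) : ℕ) <
              a (((π i : Fin (t - 1)) : ℕ) + 1) - a ((π i : Fin (t - 1)) : ℕ)) := by
  intro q hq s
  obtain ⟨cst, hc⟩ := Hs.core q s hq
  refine ⟨cst, fun t ht π hπ ⟨σ, σ1, σ2⟩ N hN f => ?_⟩
  obtain ⟨n, rfl⟩ : ∃ n, t = n + 1 := ⟨t - 1, by omega⟩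
  let ρ : ℕ → ℕ := fun p => if h : p < n then (π.symm ⟨p, h⟩ : ℕ) else 0
  have hρ : ∀ m : Fin n, ρ m = (π.symm m : ℕ) := fun m => by simp [ρ]
  have key : ∀ d l r k, r = l + d → r ≤ n → σ l r ≤ k → Hs.Tr ρ k l r := by
    intro d
    induction d using Nat.strong_induction_on with
    | _ d ih =>
      intro l r k e h1 h2
      rcases Nat.eq_zero_or_pos d with rfl | h0
      · exact e ▸ .one k l
      obtain ⟨m, m1, m2⟩ := (Finset.Ico l r).exists_min_image ρ ⟨l, by simp; omega⟩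
      obtain ⟨m3, m4⟩ := Finset.mem_Ico.1 m1
      have hm : m < n := by omega
      have m5 : ∀ i, l ≤ i → i < r → ρ m ≤ ρ i := fun i a b => m2 i (Finset.mem_Ico.2 ⟨a, b⟩)
      have m6 : ∀ p : Fin n, l ≤ p → p < r → π.symm ⟨m, hm⟩ ≤ π.symm p := fun p a b => by
        have := m5 p a b
        rwa [hρ p, hρ ⟨m, hm⟩] at this
      obtain ⟨a1, a2⟩ := σ2 l r ⟨m, hm⟩ m3 m4 h1 m6
      simp only [max_le_iff, min_lt_iff] at a1 a2
      obtain ⟨k, rfl⟩ : ∃ k', k = k' + 1 := ⟨k - 1, by omega⟩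
      have hb : Hs.Bef ρ l m (m + 1) r ∨ Hs.Bef ρ (m + 1) r l m := by
        refine (hπ ⟨l, by omega⟩ ⟨m, hm⟩ ⟨r - 1, by omega⟩ m3 (show m ≤ r - 1 by omega)
          fun p a b => m6 p a (by have : (p : ℕ) ≤ r - 1 := b; omega)).imp
          (fun h i j i1 i2 j1 j2 => ?_) fun h j i j1 j2 i1 i2 => ?_
        all_goals
          rw [hρ ⟨i, by omega⟩, hρ ⟨j, by omega⟩]
          exact h ⟨i, by omega⟩ ⟨j, by omega⟩ i1 i2 j1 (show j ≤ r - 1 by omega)
      rcases a2 with a2 | a2
      · exact .step (s := true) ⟨m, m3, m4, m5, by simp⟩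
          (ih (m - l) (by omega) l m k (by omega) (by omega) (by omega))
          (ih (r - (m + 1)) (by omega) (m + 1) r _ (by omega) h1 (by omega)) hb
      · exact .step (s := false) ⟨m, m3, m4, m5, by simp⟩
          (ih (r - (m + 1)) (by omega) (m + 1) r k (by omega) h1 (by omega))
          (ih (m - l) (by omega) l m _ (by omega) (by omega) (by omega)) hb.symm
  obtain ⟨c, hcq, v, a, h1, h2, -, h3⟩ := hc (fun x y => (f x y : ℕ)) (fun x y => (f x y).2) ρ n
    (key n 0 n s (by omega) le_rfl σ1) N hN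
  refine ⟨a, ⟨c, hcq⟩, fun i hi => (h2 i (i + 1) (by omega) (by omega) (by omega)).1,
    fun i hi => Finset.mem_range.1 (h1 i (by omega) (by omega)),
    fun i j hij hj => Fin.ext (h2 i j (by omega) hij (by omega)).2,
    fun i j hij => h3 _ _ (by omega) (π i).2 (by omega) (π j).2 ?_⟩
  rw [hρ (π i), hρ (π j)]
  simpa using hij

end Pool.Agent.Results.MP_4cb405_co.Strahler
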